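import Pool.Agent.MX.G.Uc
import Pool.Agent.AT.CritCfg

/-!
# Project MX, geometry: the critical point from the solution `z` of the vertex equations

`u = uu z` at a node with negative weight, `u = -conj (uu z)` at a node with positive weight.
-/

set_option autoImplicit false

namespace Pool.Agent.MX.G

open Pool.Agent.S3 Pool.Agent.S3.E
open Complex
open Pool.Agent.AT (Tr oth Adj adj_cs adj_su oth_cs oth_su mem_inc mem_inc_par mem_inc_succ exists_edge)
open Pool.Agent.AT.G (SV mq CritS)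
open Pool.Agent.H63.VC3 (hh)
open Pool.Agent.H63.VC7 (inc)
open Pool.Agent.H25.RK (gdv gdv_re_lt)
open scoped ComplexConjugate

/-- The unknown of a node of sign `σ`. -/
noncomputable def uz (σ : ℤ) (z : ℂ) : ℂ := if σ = 1 then -conj (E.uu z) else E.uu z

/-- The slot at the node `z` of the edge to `w`. -/
noncomputable def qm (σ τ : ℤ) (z w : ℂ) : ℂ :=
  if σ = τ then qq (E.uu z) (E.uu w) else qq (E.uu z) (conj (E.uu w))

/-- The range of the solutions. -/
structure Rz (z : ℂ) : Prop where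
  re0 : 0 < z.re
  re1 : z.re < Real.pi / 2
  im0 : 0 < z.im

variable {σ τ : ℤ} {z w : ℂ}

theorem Rz.abs_im (h : Rz z) : |(E.uu z).im| < Real.pi / 2 := by
  rw [E.uu, UU_im]
  exact abs_th_lt h.re0 h.re1 h.im0

theorem uz_im (σ : ℤ) (z : ℂ) : (uz σ z).im = (E.uu z).im := by
  unfold uz
  split_ifs
  · rw [neg_im, conj_im, neg_neg]
  · rfl

/-- `v = z / π` or `-conj z / π`. -/
theorem Rz.gdv_uu (h : Rz z) : gdv (E.uu z) = z / Real.pi := by
  have hpi : (Real.pi : ℂ) ≠ 0 := by exact_mod_cast Real.pi_ne_zero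
  have := gd_eq h.abs_im
  rw [E.uu, E.gd_uu h.re0 h.re1 h.im0] at this
  rw [eq_div_iff hpi, mul_comm]
  exact this.symm

theorem Rz.gdv_uu' (h : Rz z) : gdv (-conj (E.uu z)) = -conj z / Real.pi := by
  have hpi : (Real.pi : ℂ) ≠ 0 := by exact_mod_cast Real.pi_ne_zero
  have h0 : |(conj (E.uu z)).im| < Real.pi / 2 := by
    rw [conj_im, abs_neg]
    exact h.abs_im
  have h1 := gd_eq h0
  have h2 := gd_conj h.abs_im
  have h3 : gd (E.uu z) = z := by
    rw [E.uu, E.gd_uu h.re0 h.re1 h.im0]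
  rw [h2, h3] at h1
  rw [gdv_neg h0, neg_div]
  congr 1
  rw [eq_div_iff hpi, mul_comm]
  exact h1.symm

theorem Rz.gdv_re (h : Rz z) (σ : ℤ) : Real.pi * |(gdv (uz σ z)).re| = z.re := by
  have hpi := Real.pi_pos
  have hp : 0 < z.re / Real.pi := div_pos h.re0 hpi
  unfold uz
  split_ifs
  · rw [h.gdv_uu', neg_div, neg_re, div_ofReal_re, conj_re, abs_neg, abs_of_pos hp]
    field_simp
  · rw [h.gdv_uu, div_ofReal_re, abs_of_pos hp]
    field_simp

theorem Rz.Lc_im (h : Rz z) (σ : ℤ) : |(Lc (uz σ z)).im| = ph z.re z.im := by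
  have h1 := (E.Lc_uu h.re0 h.re1 h.im0).2
  have h2 := ph_pos h.re0 h.re1 h.im0
  unfold uz
  split_ifs
  · rw [Lc_neg, Lc_conj h.abs_im, conj_im, h1, abs_neg, abs_of_pos h2]
  · rw [h1, abs_of_pos h2]

theorem reg_uz (h : Reg (E.uu z) (E.uu w)) (σ τ : ℤ) : Reg (uz σ z) (uz τ w) := by
  unfold Reg at *
  rw [uz_im, uz_im]
  exact h

theorem reg_conj_right {u w : ℂ} (h : Reg u w) : Reg u (conj w) := by
  unfold Reg at *
  rw [conj_im, abs_neg]
  exact h

theorem reg_conj_left {u w : ℂ} (h : Reg u w) : Reg (conj u) w := by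
  unfold Reg at *
  rw [conj_im, abs_neg]
  exact h

/-- `Good` for all signs. -/
theorem good_uz (hσ : σ = 1 ∨ σ = -1) (hτ : τ = 1 ∨ τ = -1) (hr : Reg (E.uu z) (E.uu w))
    (hs : σ = τ → Good (E.uu z) (E.uu w)) (ho : σ ≠ τ → Good (E.uu z) (conj (E.uu w))) :
    Good (uz σ z) (uz τ w) := by
  have hr2 := reg_conj_right hr
  rcases hσ with rfl | rfl <;> rcases hτ with rfl | rfl
  · have g := (hs rfl).conj hr
    have e : uz 1 z = -conj (E.uu z) := if_pos rfl
    have e' : uz 1 w = -conj (E.uu w) := if_pos rfl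
    rw [e, e']
    exact (g.neg_left (reg_conj_left hr2)).neg_right
  · have g := (ho (by decide)).conj hr2
    rw [conj_conj] at g
    have e : uz 1 z = -conj (E.uu z) := if_pos rfl
    have e' : uz (-1) w = E.uu w := if_neg (by decide)
    rw [e, e']
    exact g.neg_left (reg_conj_left hr)
  · have g := ho (by decide)
    have e : uz (-1) z = E.uu z := if_neg (by decide)
    have e' : uz 1 w = -conj (E.uu w) := if_pos rfl
    rw [e, e']
    exact g.neg_right
  · have e : uz (-1) z = E.uu z := if_neg (by decide)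
    have e' : uz (-1) w = E.uu w := if_neg (by decide)
    rw [e, e']
    exact hs rfl

/-- The slots for all signs. -/
theorem qq_uz (hσ : σ = 1 ∨ σ = -1) (hτ : τ = 1 ∨ τ = -1) (hr : Reg (E.uu z) (E.uu w)) :
    qq (uz σ z) (uz τ w) = if σ = 1 then -conj (qm σ τ z w) else qm σ τ z w := by
  have hr2 := reg_conj_right hr
  rcases hσ with rfl | rfl <;> rcases hτ with rfl | rfl
  · have e : uz 1 z = -conj (E.uu z) := if_pos rfl
    have e' : uz 1 w = -conj (E.uu w) := if_pos rfl
    have e2 : qm 1 1 z w = qq (E.uu z) (E.uu w) := if_pos rfl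
    rw [e, e', e2, if_pos rfl, qq_neg_right, qq_neg_left (reg_conj_left hr2), qq_conj hr]
  · have e : uz 1 z = -conj (E.uu z) := if_pos rfl
    have e' : uz (-1) w = E.uu w := if_neg (by decide)
    have e2 : qm 1 (-1) z w = qq (E.uu z) (conj (E.uu w)) := if_neg (by decide)
    have h3 := qq_conj hr2
    rw [conj_conj] at h3
    rw [e, e', e2, if_pos rfl, qq_neg_left (reg_conj_left hr), h3]
  · have e : uz (-1) z = E.uu z := if_neg (by decide)
    have e' : uz 1 w = -conj (E.uu w) := if_pos rfl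
    have e2 : qm (-1) 1 z w = qq (E.uu z) (conj (E.uu w)) := if_neg (by decide)
    rw [e, e', e2, if_neg (by decide), qq_neg_right]
  · have e : uz (-1) z = E.uu z := if_neg (by decide)
    have e' : uz (-1) w = E.uu w := if_neg (by decide)
    have e2 : qm (-1) (-1) z w = qq (E.uu z) (E.uu w) := if_pos rfl
    rw [e, e', e2, if_neg (by decide)]

theorem qq_uz_im (hσ : σ = 1 ∨ σ = -1) (hτ : τ = 1 ∨ τ = -1) (hr : Reg (E.uu z) (E.uu w)) :
    |(qq (uz σ z) (uz τ w)).im| = |(qm σ τ z w).im| := by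
  rw [qq_uz hσ hτ hr]
  split_ifs
  · rw [neg_im, conj_im, neg_neg]
  · rfl

variable {m : ℕ} [Tr m]

/-- **The critical point of a tree with arbitrary signs, in the form used for the geometry.** -/
theorem critS_z {σ : Fin (m + 1) → ℤ} {a : Fin (m + 1) → ℕ} {z : Fin (m + 1) → ℂ} (hm : 1 ≤ m)
    (hσ : ∀ i, σ i = 1 ∨ σ i = -1) (hz : ∀ i, Rz (z i))
    (reg : ∀ i k, Adj i k → Reg (E.uu (z i)) (E.uu (z k)))
    (same : ∀ i k, Adj i k → σ i = σ k → Good (E.uu (z i)) (E.uu (z k)))
    (opp : ∀ i k, Adj i k → σ i ≠ σ k → Good (E.uu (z i)) (conj (E.uu (z k))))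
    (vertex : ∀ i, (a i : ℂ) * z i = (Real.pi : ℂ) +
      I * ∑ j ∈ inc (Tr.par (m := m)) Fin.succ i, qm (σ i) (σ (oth j i)) (z i) (z (oth j i)))
    (pos : ∀ i k, Adj i k → |(qm (σ i) (σ k) (z i) (z k)).im| + (z k).re < Real.pi / 2)
    (str : ∀ i, (z i).re + ph (z i).re (z i).im < Real.pi / 2) :
    CritS (Tr.par (m := m)) Fin.succ (fun i => σ i * (a i : ℤ))
      (fun j => yy (uz (σ (Tr.par j)) (z (Tr.par j))) (uz (σ j.succ) (z j.succ)))
      (fun i => gdv (uz (σ i) (z i))) := by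
  have hpi := Real.pi_pos
  have hpc : (Real.pi : ℂ) ≠ 0 := by exact_mod_cast Real.pi_ne_zero
  have hr : ∀ i k, Adj i k → Reg (uz (σ i) (z i)) (uz (σ k) (z k)) := fun i k h =>
    reg_uz (reg i k h) _ _
  have hg : ∀ i k, Adj i k → Good (uz (σ i) (z i)) (uz (σ k) (z k)) := fun i k h =>
    good_uz (hσ i) (hσ k) (reg i k h) (same i k h) (opp i k h)
  refine critS_uc (u := fun i => uz (σ i) (z i)) (fun j => Tr.ne j) ?_ (fun j => hr _ _ (adj_cs j))
    (fun j => ⟨hg _ _ (adj_cs j), hg _ _ (adj_su j)⟩) ?_ ?_ ?_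
  · intro i
    obtain ⟨j, e | e⟩ := exists_edge hm i
    · exact ⟨j, by rw [e]; exact mem_inc_par j⟩
    · exact ⟨j, by rw [e]; exact mem_inc_succ j⟩
  · intro i
    have e1 : ∀ j ∈ inc (Tr.par (m := m)) Fin.succ i,
        he (yy (uz (σ (Tr.par j)) (z (Tr.par j))) (uz (σ j.succ) (z j.succ)) -
          gdv (uz (σ i) (z i))) -
        he (yy (uz (σ (Tr.par j)) (z (Tr.par j))) (uz (σ j.succ) (z j.succ)) +
          gdv (uz (σ i) (z i))) =
        -2 * (if σ i = 1 then -conj (qm (σ i) (σ (oth j i)) (z i) (z (oth j i)))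
          else qm (σ i) (σ (oth j i)) (z i) (z (oth j i))) := by
      intro j hj
      have key : ∀ i k, Adj i k →
          he (yy (uz (σ i) (z i)) (uz (σ k) (z k)) - gdv (uz (σ i) (z i))) -
          he (yy (uz (σ i) (z i)) (uz (σ k) (z k)) + gdv (uz (σ i) (z i))) =
          -2 * (if σ i = 1 then -conj (qm (σ i) (σ k) (z i) (z k))
            else qm (σ i) (σ k) (z i) (z k)) := by
        intro i k h
        have h1 := ev_op (hr i k h) (hg i k h)
        unfold ev at h1
        rw [h1, qq_uz (hσ i) (hσ k) (reg i k h)]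
      rcases mem_inc hj with e | e
      · subst e
        rw [oth_cs]
        exact key _ _ (adj_cs j)
      · subst e
        rw [oth_su, yy_comm]
        exact key _ _ (adj_su j)
    rw [Finset.sum_congr rfl e1, ← Finset.mul_sum]
    have h1 := vertex i
    rcases hσ i with h | h
    · have h2 := congrArg conj h1
      rw [map_add, map_mul, map_mul, conj_ofReal, conj_I, map_natCast, map_sum] at h2
      simp only [h, if_true, Finset.sum_neg_distrib]
      have e2 : uz 1 (z i) = -conj (E.uu (z i)) := if_pos rfl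
      rw [e2, (hz i).gdv_uu']
      rw [h] at h2
      generalize (∑ j ∈ inc (Tr.par (m := m)) Fin.succ i,
        conj (qm 1 (σ (oth j i)) (z i) (z (oth j i)))) = S at *
      push_cast
      field_simp
      linear_combination (-2 * I) * h2 + (2 * S) * I_sq
    · have h0 : ¬ (-1 : ℤ) = 1 := by decide
      simp only [h, h0, if_false]
      have e2 : uz (-1) (z i) = E.uu (z i) := if_neg (by decide)
      rw [e2, (hz i).gdv_uu]
      rw [h] at h1
      generalize (∑ j ∈ inc (Tr.par (m := m)) Fin.succ i,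
        qm (-1) (σ (oth j i)) (z i) (z (oth j i))) = S at *
      push_cast
      field_simp
      linear_combination (-2 * I) * h1 - (2 * S) * I_sq
  · intro j
    have r1 := reg _ _ (adj_cs j)
    have r2 := reg _ _ (adj_su j)
    show Real.pi * |(gdv (uz (σ j.succ) (z j.succ))).re| +
      |(qq (uz (σ (Tr.par j)) (z (Tr.par j))) (uz (σ j.succ) (z j.succ))).im| < Real.pi / 2 ∧
      Real.pi * |(gdv (uz (σ (Tr.par j)) (z (Tr.par j)))).re| +
      |(qq (uz (σ j.succ) (z j.succ)) (uz (σ (Tr.par j)) (z (Tr.par j)))).im| < Real.pi / 2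
    rw [(hz _).gdv_re, (hz _).gdv_re, qq_uz_im (hσ _) (hσ _) r1, qq_uz_im (hσ _) (hσ _) r2]
    have p1 := pos _ _ (adj_cs j)
    have p2 := pos _ _ (adj_su j)
    exact ⟨by linarith, by linarith⟩
  · intro j
    show Real.pi * |(gdv (uz (σ (Tr.par j)) (z (Tr.par j)))).re| +
      Real.pi * |(gdv (uz (σ j.succ) (z j.succ))).re| +
      |(Lc (uz (σ j.succ) (z j.succ))).im - (Lc (uz (σ (Tr.par j)) (z (Tr.par j)))).im| < Real.pi
    rw [(hz _).gdv_re, (hz _).gdv_re]
    have a1 := (hz j.succ).Lc_im (σ j.succ)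
    have a2 := (hz (Tr.par j)).Lc_im (σ (Tr.par j))
    have a3 := abs_sub (Lc (uz (σ j.succ) (z j.succ))).im
      (Lc (uz (σ (Tr.par j)) (z (Tr.par j)))).im
    rw [a1, a2] at a3
    have s1 := str (Tr.par j)
    have s2 := str j.succ
    linarith

end Pool.Agent.MX.G
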