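import Pool.Agent.AT.G.DefsS
import Pool.Agent.H25.RK.DGI
import Pool.Agent.H63.GO.MTaylor
import Pool.Agent.H63.VC4.GaussN
import Pool.Agent.H63.VC4.LaplaceN
import Pool.Agent.S3.Asm.Def
import Pool.Agent.S3.BridgeF
import Pool.Agent.S3.Chain

/-!
# Project MX, geometry: the critical point from the unknowns `u i` of the nodes

At the node `i` the variable is `v i = gdv (u i)`, at the edge `j` it is
`y j = yy (u (s j)) (u (t j))`. No assumption on signs.
-/

set_option autoImplicit false

namespace Pool.Agent.MX.G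

open Pool.Agent.S3
open Complex
open Pool.Agent.AT.G (SV mq CritS)
open Pool.Agent.H63.VC3 (hh)
open Pool.Agent.H63.VC7 (inc)
open Pool.Agent.H25.RK (gdv gdv_re_lt)
open scoped ComplexConjugate

theorem gen_add {u w : ℂ} (h : Reg u w) :
    sin (Real.pi * (yy u w + gdv u)) * cos (Real.pi * gdv w) =
      exp (qq u w) * (cos (Real.pi * gdv u) * cos (Real.pi * yy u w)) := by
  rw [sin_yy_add h, cos_pi_gdv h.left, cos_pi_gdv h.right]
  have h1 := cosh_ne h.left
  have h2 := cosh_ne h.right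
  field_simp

theorem gen_sub {u w : ℂ} (h : Reg u w) :
    sin (Real.pi * (yy u w - gdv u)) * cos (Real.pi * gdv w) =
      exp (-qq u w) * (cos (Real.pi * gdv u) * cos (Real.pi * yy u w)) := by
  rw [sin_yy_sub h, cos_pi_gdv h.left, cos_pi_gdv h.right]
  have h1 := cosh_ne h.left
  have h2 := cosh_ne h.right
  field_simp

theorem cos_pi_gdv_ne {u : ℂ} (h : |u.im| < Real.pi / 2) : cos (Real.pi * gdv u) ≠ 0 := by
  rw [cos_pi_gdv h]
  exact one_div_ne_zero (cosh_ne h)

/-- The values of `sin π (y ± v)`. -/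
theorem sv_uw {u w : ℂ} (h : Reg u w) : SV (yy u w) (gdv u) (gdv w) (qq u w) (qq w u) := by
  have h' := h.symm
  refine ⟨cos_yy_ne h, cos_pi_gdv_ne h.left, cos_pi_gdv_ne h.right, gen_add h, gen_sub h, ?_, ?_⟩
  · have := gen_add h'
    rw [yy_comm] at this
    exact this
  · have := gen_sub h'
    rw [yy_comm] at this
    exact this

/-- `log (2 cos (π v)) = log 2 - log cosh u`. -/
theorem hh_gdv {u : ℂ} (hu : |u.im| < Real.pi / 2) : hh (gdv u + 1 / 2) = Real.log 2 - Lc u := by
  have h1 := abs_le.1 (Lc_im_abs hu)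
  have h2 := abs_lt.1 hu
  have hpi := Real.pi_pos
  have e : 2 * cos (Real.pi * gdv u) = exp (Real.log 2 - Lc u) := by
    rw [cos_pi_gdv hu, exp_sub, exp_log_two, exp_Lc hu]
    ring
  rw [hh, mul_add, show (Real.pi : ℂ) * (1 / 2) = (Real.pi : ℂ) / 2 by ring,
    Complex.sin_add_pi_div_two, e, log_exp]
  · rw [sub_im, ofReal_im]; linarith
  · rw [sub_im, ofReal_im]; linarith

/-- The strand equation. -/
theorem str_uw {u w : ℂ} (h : Reg u w) (g' : Good w u) :
    he (yy u w - gdv w) + he (yy u w + gdv w) =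
      2 * hh (yy u w + 1 / 2) + 2 * hh (gdv w + 1 / 2) - 2 * hh (gdv u + 1 / 2) := by
  have e3 := (he_sub_eq h.symm g').2
  have e4 := (he_add_eq h.symm g').2
  rw [yy_comm] at e3 e4
  rw [e3, e4, hh_half h, hh_gdv h.left, hh_gdv h.right, Lm, Lp, lcy_comm]
  ring

theorem mq_uw {u w : ℂ} (h : Reg u w) (g : Good u w) : mq (yy u w) (gdv u) = qq u w := by
  have h1 := ev_op h g
  unfold ev at h1
  unfold mq
  linear_combination (-1 / 2 : ℂ) * h1

variable {m p : ℕ}

/-- **The critical point, for arbitrary signs of the weights.** -/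
theorem critS_uc {s t : Fin m → Fin p} {a : Fin p → ℤ} {u : Fin p → ℂ} (st : ∀ j, s j ≠ t j)
    (ne : ∀ i, (inc s t i).Nonempty) (reg : ∀ j, Reg (u (s j)) (u (t j)))
    (good : ∀ j, Good (u (s j)) (u (t j)) ∧ Good (u (t j)) (u (s j)))
    (ev : ∀ i, 2 * Real.pi * I * (a i * gdv (u i) + 1) +
      ∑ j ∈ inc s t i, (he (yy (u (s j)) (u (t j)) - gdv (u i)) -
        he (yy (u (s j)) (u (t j)) + gdv (u i))) = 0)
    (pos : ∀ j, Real.pi * |(gdv (u (t j))).re| + |(qq (u (s j)) (u (t j))).im| < Real.pi / 2 ∧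
      Real.pi * |(gdv (u (s j))).re| + |(qq (u (t j)) (u (s j))).im| < Real.pi / 2)
    (str : ∀ j, Real.pi * |(gdv (u (s j))).re| + Real.pi * |(gdv (u (t j))).re| +
      |(Lc (u (t j))).im - (Lc (u (s j))).im| < Real.pi) :
    CritS s t a (fun j => yy (u (s j)) (u (t j))) (fun i => gdv (u i)) := by
  have him : ∀ i, |(u i).im| < Real.pi / 2 := by
    intro i
    obtain ⟨j, hj⟩ := ne i
    unfold inc at hj
    rw [Finset.mem_filter] at hj
    rcases hj.2 with h | h
    · rw [← h]
      exact (reg j).left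
    · rw [← h]
      exact (reg j).right
  have m1 : ∀ j, mq (yy (u (s j)) (u (t j))) (gdv (u (s j))) = qq (u (s j)) (u (t j)) :=
    fun j => mq_uw (reg j) (good j).1
  have m2 : ∀ j, mq (yy (u (s j)) (u (t j))) (gdv (u (t j))) = qq (u (t j)) (u (s j)) := by
    intro j
    have := mq_uw (reg j).symm (good j).2
    rw [yy_comm] at this
    exact this
  refine
    { st := st
      ne := ne
      hy := fun j => ⟨yy_re_pos (reg j), yy_re_lt (reg j)⟩
      hv := fun i => gdv_re_lt (him i)
      dom := ?_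
      ey := ?_
      ev := ev
      sv := ?_
      pos := ?_
      str := ?_
      ste := fun j => str_uw (reg j) (good j).2 }
  · intro j
    have h3 := (he_sub_eq (reg j).symm (good j).2).1
    have h4 := (he_add_eq (reg j).symm (good j).2).1
    rw [yy_comm] at h3 h4
    exact ⟨⟨(he_sub_eq (reg j) (good j).1).1, (he_add_eq (reg j) (good j).1).1⟩, h3, h4⟩
  · intro j
    have h1 := ey_add_eq (reg j) (good j).1 (good j).2
    unfold S3.ey at h1
    linear_combination h1
  · intro j
    show SV (yy (u (s j)) (u (t j))) (gdv (u (s j))) (gdv (u (t j))) _ _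
    rw [m1, m2]
    exact sv_uw (reg j)
  · intro j
    show Real.pi * |(gdv (u (t j))).re| + |(mq (yy (u (s j)) (u (t j))) (gdv (u (s j)))).im| <
        Real.pi / 2 ∧ Real.pi * |(gdv (u (s j))).re| +
        |(mq (yy (u (s j)) (u (t j))) (gdv (u (t j)))).im| < Real.pi / 2
    rw [m1, m2]
    exact pos j
  · intro j
    have e : (hh (gdv (u (s j)) + 1 / 2) - hh (gdv (u (t j)) + 1 / 2)).im =
        (Lc (u (t j))).im - (Lc (u (s j))).im := by
      rw [hh_gdv (him _), hh_gdv (him _), sub_im, sub_im, sub_im, ofReal_im]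
      ring
    show Real.pi * |(gdv (u (s j))).re| + Real.pi * |(gdv (u (t j))).re| +
      |(hh (gdv (u (s j)) + 1 / 2) - hh (gdv (u (t j)) + 1 / 2)).im| < Real.pi
    rw [e]
    exact str j

end Pool.Agent.MX.G
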